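import Pool.Agent.H.MP_69d501_gt.D

namespace Pool.Agent.Results.MP_f8820e_gt.Yes

open Pool.Agent.H.MP_69d501_gt

theorem result (D : GK) : sInf {k : ℕ∞ | ∃ n : ℕ, k = n ∧ OneStep Virt D n} =
    sInf {k : ℕ∞ | ∃ n : ℕ, k = n ∧ Seq Virt D n} := by
  rw [virt_eq]
  exact main false D

end Pool.Agent.Results.MP_f8820e_gt.Yes
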